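import Pool.Agent.T9h79.MM.Path

/-!
# The finite sequence of models along a half-line in general position
-/

set_option autoImplicit false

namespace Pool.Agent.T9h79.MM

open Filter Topology

variable {p N0 : ℕ} {ι : Type}

/-- a crossing from the chamber of `d` to the chamber of `d'` -/
def Step (g : Fin N0 → Fin p → ℚ) (c : ι → Fin N0 → ℚ) (κ : Fin p → ℚ)
    (d d' : ι → (Fin p → ℚ) →ₗ[ℚ] ℚ) (φ : (Fin p → ℚ) →ₗ[ℚ] ℚ) (μ : Fin p → ℚ) : Prop :=
  φ κ < 0 ∧ φ μ = 0 ∧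
    (∀ᶠ μ' in 𝓝 μ, (0 ≤ φ μ' ↔ Lin g c d μ') ∧ (φ μ' ≤ 0 ↔ Lin g c d' μ')) ∧
    (∀ P, d' P κ ≤ d P κ) ∧ ∃ P, d' P κ < d P κ

/-- the boundary of the cone -/
def Mfs (g : Fin N0 → Fin p → ℚ) (c : ι → Fin N0 → ℚ) (κ : Fin p → ℚ)
    (d : ι → (Fin p → ℚ) →ₗ[ℚ] ℚ) (φ : (Fin p → ℚ) →ₗ[ℚ] ℚ) (μ : Fin p → ℚ) : Prop :=
  φ κ < 0 ∧ φ μ = 0 ∧
    (∀ᶠ μ' in 𝓝 μ, (0 ≤ φ μ' ↔ Lin g c d μ') ∧ (0 ≤ φ μ' ↔ Eff g μ'))

/-- the sequence -/
structure Chain (g : Fin N0 → Fin p → ℚ) (c : ι → Fin N0 → ℚ) (κ α : Fin p → ℚ) (b : ℚ)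
    (d : ι → (Fin p → ℚ) →ₗ[ℚ] ℚ) (n L : ℕ) (t : ℕ → ℚ)
    (ds : ℕ → ι → (Fin p → ℚ) →ₗ[ℚ] ℚ) (φ : ℕ → (Fin p → ℚ) →ₗ[ℚ] ℚ) : Prop where
  len : L ≤ n
  zero : ds 0 = d
  top : t 0 < b
  mono : ∀ j < L, t (j + 1) < t j
  nonneg : 0 ≤ t L
  amp0 : ∀ s, t 0 < s → s ≤ b → ∀ᶠ μ' in 𝓝 (D κ α s), Lin g c (ds 0) μ'
  amp : ∀ j < L, ∀ s, t (j + 1) < s → s < t j → ∀ᶠ μ' in 𝓝 (D κ α s), Lin g c (ds (j + 1)) μ'
  step : ∀ j < L, Step g c κ (ds j) (ds (j + 1)) (φ j) (D κ α (t j))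
  fin : (t L = 0 ∧ Lin g c (ds L) κ) ∨ (0 < t L ∧ Mfs g c κ (ds L) (φ L) (D κ α (t L)))

variable {g : Fin N0 → Fin p → ℚ} {κ α : Fin p → ℚ}

theorem Cell_of_nonneg {μ μ' : Fin p → ℚ} (h : ∀ x, 0 ≤ Fn g x μ * Fn g x μ') : Cell g μ μ' := h

/-- a generic point below the crossing -/
theorem exists_below (E : Finset ℚ) {t : ℚ} (ht : 0 < t) :
    ∃ b, 0 < b ∧ b < t ∧ b ∉ E ∧ ∀ r ∈ E, b < r → r < t → False := by
  classical
  obtain ⟨m, hm⟩ : ∃ m, m = (insert 0 (E.filter fun r => r < t)).max'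
    (Finset.insert_nonempty _ _) := ⟨_, rfl⟩
  have h0 : 0 ≤ m := by
    rw [hm]
    exact Finset.le_max' _ _ (Finset.mem_insert_self _ _)
  have h1 : m < t := by
    rw [hm, Finset.max'_lt_iff]
    intro r hr
    rw [Finset.mem_insert, Finset.mem_filter] at hr
    rcases hr with rfl | hr
    · exact ht
    · exact hr.2
  have h2 : ∀ r ∈ E, r < t → r ≤ m := by
    intro r hr hrt
    rw [hm]
    exact Finset.le_max' _ _ (Finset.mem_insert_of_mem (Finset.mem_filter.2 ⟨hr, hrt⟩))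
  refine ⟨(m + t) / 2, by linarith, by linarith, fun h => ?_, fun r hr h3 h4 => ?_⟩
  · have := h2 _ h (by linarith)
    linarith
  · have := h2 r hr h4
    linarith

/-- **The sequence of models.** -/
theorem chain (hG : GP g κ α) {c : ι → Fin N0 → ℚ} {δ : ι → (Fin p → ℚ) →ₗ[ℚ] ℚ}
    (h : Bdd g c δ) : ∀ (n : ℕ) (b : ℚ) (d : ι → (Fin p → ℚ) →ₗ[ℚ] ℚ), 0 < b →
      b ∉ Ex g κ α → ((Ex g κ α).filter fun r => 0 < r ∧ r < b).card ≤ n →
      (∀ μ', Cell g (D κ α b) μ' → Lin g c d μ') →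
      ∃ (L : ℕ) (t : ℕ → ℚ) (ds : ℕ → ι → (Fin p → ℚ) →ₗ[ℚ] ℚ)
        (φ : ℕ → (Fin p → ℚ) →ₗ[ℚ] ℚ), Chain g c κ α b d n L t ds φ := by
  intro n
  induction n with
  | zero =>
    intro b d hb0 hb hcard hd
    have hemp : ∀ r ∈ Ex g κ α, 0 < r → r < b → False := by
      intro r hr h1 h2
      have h3 : r ∈ (Ex g κ α).filter fun r => 0 < r ∧ r < b :=
        Finset.mem_filter.2 ⟨hr, h1, h2⟩
      rw [Finset.card_eq_zero.1 (Nat.le_zero.1 hcard)] at h3
      exact absurd h3 (Finset.notMem_empty r)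
    refine ⟨0, fun _ => 0, fun _ => d, fun _ => 0, ⟨le_rfl, rfl, hb0, fun j hj => absurd hj
      (Nat.not_lt_zero j), le_rfl, fun s h1 h2 => ?_, fun j hj => absurd hj (Nat.not_lt_zero j),
      fun j hj => absurd hj (Nat.not_lt_zero j), Or.inl ⟨rfl, ?_⟩⟩⟩
    · rcases h2.eq_or_lt with rfl | h2
      · exact (near_SC (gen_D hG hb)).mono fun μ' h3 => hd _ h3.cell
      · refine amp_of_SC ?_ hd
        exact (sc_gap hG h2 (fun h3 => hemp s h3 h1 h2) hb fun r hr h3 h4 =>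
          hemp r hr (h1.trans h3) h4).symm
    · refine hd _ fun x => ?_
      have h1 := cell_gap (g := g) (κ := κ) (α := α) hb0 (fun r hr h1 h2 => hemp r hr h1 h2) x
      rw [D_zero, mul_comm] at h1
      exact h1
  | succ n ih =>
    intro b d hb0 hb hcard hd
    by_cases hne : ((Ex g κ α).filter fun r => 0 < r ∧ r < b).Nonempty
    swap
    · rw [Finset.not_nonempty_iff_eq_empty] at hne
      obtain ⟨L, t, ds, φ, hC⟩ := ih b d hb0 hb (by rw [hne, Finset.card_empty]; omega) hd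
      exact ⟨L, t, ds, φ, { hC with len := hC.len.trans (Nat.le_succ n) }⟩
    -- the largest crossing below `b`
    obtain ⟨t0, ht0⟩ : ∃ t0, t0 = Finset.max' _ hne := ⟨_, rfl⟩
    have ht0m : t0 ∈ (Ex g κ α).filter fun r => 0 < r ∧ r < b := by
      rw [ht0]
      exact Finset.max'_mem _ _
    have ht0m' := ht0m
    rw [Finset.mem_filter] at ht0m'
    obtain ⟨htE, ht00, ht0b⟩ := ht0m'
    have hgapb : ∀ r ∈ Ex g κ α, t0 < r → r < b → False := by
      intro r hr h1 h2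
      have h3 : r ≤ t0 := by
        rw [ht0]
        exact Finset.le_max' _ _ (Finset.mem_filter.2 ⟨hr, ht00.trans h1, h2⟩)
      linarith
    obtain ⟨b', hb'0, hb't, hb'E, hgapb'⟩ := exists_below (Ex g κ α) ht00
    obtain ⟨φ0, hφα, hφD, hφκ, hwall⟩ := exists_wall hG ht00 htE
    have hwb := hwall b hb fun r hr h1 h2 => hgapb r hr (by rwa [min_eq_right ht0b.le] at h1)
      (by rwa [max_eq_left ht0b.le] at h2)
    have hwb' := hwall b' hb'E fun r hr h1 h2 => hgapb' r hr (by rwa [min_eq_left hb't.le] at h1)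
      (by rwa [max_eq_right hb't.le] at h2)
    have hcard' : ((Ex g κ α).filter fun r => 0 < r ∧ r < b').card ≤ n := by
      have h1 : ((Ex g κ α).filter fun r => 0 < r ∧ r < b') ⊆
          ((Ex g κ α).filter fun r => 0 < r ∧ r < b).erase t0 := by
        intro r hr
        rw [Finset.mem_filter] at hr
        rw [Finset.mem_erase, Finset.mem_filter]
        refine ⟨?_, hr.1, hr.2.1, by linarith [hr.2.2]⟩
        rintro rfl
        linarith [hr.2.2]
      have h2 := Finset.card_le_card h1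
      rw [Finset.card_erase_of_mem ht0m] at h2
      omega
    -- the points above the crossing
    have hup : ∀ s, t0 < s → s ≤ b → ∀ᶠ μ' in 𝓝 (D κ α s), Lin g c d μ' := by
      intro s h1 h2
      rcases h2.eq_or_lt with rfl | h2
      · exact (near_SC (gen_D hG hb)).mono fun μ' h3 => hd _ h3.cell
      · refine amp_of_SC ?_ hd
        exact (sc_gap hG h2 (fun h3 => hgapb s h3 h1 h2) hb fun r hr h3 h4 =>
          hgapb r hr (h1.trans h3) h4).symm
    -- the points below the crossing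
    have hdown : ∀ d' : ι → (Fin p → ℚ) →ₗ[ℚ] ℚ, (∀ μ', Cell g (D κ α b') μ' → Lin g c d' μ') →
        ∀ s, b' < s → s < t0 → ∀ᶠ μ' in 𝓝 (D κ α s), Lin g c d' μ' := by
      intro d' hd' s h1 h2
      refine amp_of_SC ?_ hd'
      exact sc_gap hG h1 hb'E (fun h3 => hgapb' s h3 h1 h2) fun r hr h3 h4 =>
        hgapb' r hr h3 (h4.trans h2)
    by_cases hE : Eff g (D κ α b')
    swap
    · -- the boundary of the cone
      refine ⟨0, fun _ => t0, fun _ => d, fun _ => φ0, ⟨Nat.zero_le _, rfl, ht0b, fun j hj =>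
        absurd hj (Nat.not_lt_zero j), ht00.le, hup, fun j hj => absurd hj (Nat.not_lt_zero j),
        fun j hj => absurd hj (Nat.not_lt_zero j), Or.inr ⟨ht00, hφκ, hφD, ?_⟩⟩⟩
      refine (hwb.and hwb').mono fun μ' h1 => ?_
      have h4 : 0 ≤ φ0 μ' → Lin g c d μ' := fun h2 =>
        hd _ (h1.1.1 (mul_nonneg (by linarith) h2))
      have h5 : Eff g μ' → 0 ≤ φ0 μ' := by
        intro h3
        by_contra h2
        rw [not_le] at h2
        exact hE (eff_of_SC (h1.2.2 (mul_pos_of_neg_of_neg (by linarith) h2)).symm h3)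
      exact ⟨⟨h4, fun h6 => h5 h6.1⟩, ⟨fun h6 => (h4 h6).1, h5⟩⟩
    obtain ⟨d', hd'⟩ := cell_lin h (gen_D hG hb'E) hE
    have hnear : ∀ᶠ μ' in 𝓝 (D κ α t0), (0 ≤ φ0 μ' → Lin g c d μ') ∧
        (φ0 μ' ≤ 0 → Lin g c d' μ') := by
      refine (hwb.and hwb').mono fun μ' h1 => ⟨fun h2 => ?_, fun h2 => ?_⟩
      · exact hd _ (h1.1.1 (mul_nonneg (by linarith) h2))
      · exact hd' _ (h1.2.1 (mul_nonneg_of_nonpos_of_nonpos (by linarith) h2))
    by_cases hdd : ∃ P, d P ≠ d' P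
    · -- a crossing
      obtain ⟨L, t, ds, φ, hC⟩ := ih b' d' hb'0 hb'E hcard' hd'
      obtain ⟨hneg1, hneg2⟩ := neg_of_wall hφκ hφD hnear
      refine ⟨L + 1, fun j => Nat.casesOn j t0 t, fun j => Nat.casesOn j d ds,
        fun j => Nat.casesOn j φ0 φ, ⟨Nat.succ_le_succ hC.len, rfl, ht0b, ?_, hC.nonneg, hup,
        ?_, ?_, hC.fin⟩⟩
      · intro j hj
        cases j with
        | zero => exact hC.top.trans hb't
        | succ j => exact hC.mono j (by omega)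
      · intro j hj s h1 h2
        cases j with
        | zero =>
          rcases le_or_gt s b' with h3 | h3
          · exact hC.amp0 s h1 h3
          · have h4 := hdown d' hd' s h3 h2
            change ∀ᶠ μ' in 𝓝 (D κ α s), Lin g c (ds 0) μ'
            rw [hC.zero]
            exact h4
        | succ j => exact hC.amp j (by omega) s h1 h2
      · intro j hj
        cases j with
        | zero =>
          change Step g c κ d (ds 0) φ0 (D κ α t0)
          rw [hC.zero]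
          exact ⟨hφκ, hφD, iff_of_wall hφD hnear hdd, hneg1, hneg2 hdd⟩
        | succ j => exact hC.step j (by omega)
    · -- no crossing
      push Not at hdd
      have hdd' : d' = d := (funext hdd).symm
      rw [hdd'] at hd' hnear
      obtain ⟨L, t, ds, φ, hC⟩ := ih b' d hb'0 hb'E hcard' hd'
      refine ⟨L, t, ds, φ, { hC with
        len := hC.len.trans (Nat.le_succ n)
        top := hC.top.trans (hb't.trans ht0b)
        amp0 := fun s h1 h2 => ?_ }⟩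
      rcases le_or_gt s b' with h3 | h3
      · exact hC.amp0 s h1 h3
      rw [hC.zero]
      rcases lt_trichotomy s t0 with h4 | rfl | h4
      · exact hdown d hd' s h3 h4
      · refine hnear.mono fun μ' h5 => ?_
        rcases le_total 0 (φ0 μ') with h6 | h6
        · exact h5.1 h6
        · exact h5.2 h6
      · exact hup s h4 h2

/-- linear functions which agree near a point are equal -/
theorem eq_of_near {φ ψ : (Fin p → ℚ) →ₗ[ℚ] ℚ} {μ : Fin p → ℚ}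
    (h : ∀ᶠ μ' in 𝓝 μ, φ μ' = ψ μ') : φ = ψ := by
  refine LinearMap.ext fun w => ?_
  have hc1 : Continuous fun θ : ℚ => μ + θ • w := by fun_prop
  have h1 := hc1.tendsto 0
  rw [zero_smul, add_zero] at h1
  obtain ⟨θ, hθ, hθ0⟩ := (((h1.eventually h).filter_mono nhdsWithin_le_nhds).and
    (self_mem_nhdsWithin : ∀ᶠ θ : ℚ in 𝓝[>] 0, 0 < θ)).exists
  have h2 := h.self_of_nhds
  rw [map_add, map_add, h2, map_smul, map_smul, smul_eq_mul, smul_eq_mul] at hθ
  exact mul_left_cancel₀ hθ0.ne' (add_left_cancel hθ)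

theorem lin_unique {c : ι → Fin N0 → ℚ} {d d' : ι → (Fin p → ℚ) →ₗ[ℚ] ℚ} {μ : Fin p → ℚ}
    (h : Lin g c d μ) (h' : Lin g c d' μ) (P : ι) : d P μ = d' P μ := by
  obtain ⟨h3, e, he, hT, hc⟩ := h.2 P
  obtain ⟨h4, e', he', hT', hc'⟩ := h'.2 P
  have h5 := h3 e' he' hT'
  have h6 := h4 e he hT
  linarith

theorem lin_smul {c : ι → Fin N0 → ℚ} {d : ι → (Fin p → ℚ) →ₗ[ℚ] ℚ} {μ : Fin p → ℚ}
    (h : Lin g c d μ) {a : ℚ} (ha : 0 < a) : Lin g c d (a • μ) := by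
  obtain ⟨⟨e0, h1, h2⟩, h3⟩ := h
  refine ⟨⟨a • e0, smul_nonneg ha.le h1, by rw [map_smul, h2]⟩, fun P => ⟨?_, ?_⟩⟩
  · intro e he hT
    have h4 := (h3 P).1 (a⁻¹ • e) (smul_nonneg (inv_nonneg.2 ha.le) he) (by
      rw [map_smul, hT, smul_smul, inv_mul_cancel₀ ha.ne', one_smul])
    rw [map_smul, smul_eq_mul] at h4
    rw [map_smul, smul_eq_mul]
    have h5 := mul_le_mul_of_nonneg_left h4 ha.le
    rw [← mul_assoc, mul_inv_cancel₀ ha.ne', one_mul] at h5
    linarith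
  · obtain ⟨e, he, hT, hc⟩ := (h3 P).2
    refine ⟨a • e, smul_nonneg ha.le he, by rw [map_smul, hT], ?_⟩
    rw [map_smul, hc, map_smul, smul_eq_mul, smul_eq_mul]
    ring

/-- **All combinations.** -/
theorem main_chain (hG : GP g κ α) {c : ι → Fin N0 → ℚ} {δ : ι → (Fin p → ℚ) →ₗ[ℚ] ℚ}
    (h : Bdd g c δ) (hα : ∀ᶠ μ' in 𝓝 α, Lin g c δ μ') :
    ∃ (L : ℕ) (t : ℕ → ℚ) (ds : ℕ → ι → (Fin p → ℚ) →ₗ[ℚ] ℚ)
      (φ : ℕ → (Fin p → ℚ) →ₗ[ℚ] ℚ),
      L ≤ Fintype.card (Finset (Fin N0) × (Fin N0 ⊕ Fin p)) ∧ ds 0 = δ ∧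
      (∀ j < L, t (j + 1) < t j) ∧ 0 ≤ t L ∧
      (∀ s, t 0 < s → ∀ᶠ μ' in 𝓝 (D κ α s), Lin g c (ds 0) μ') ∧
      (∀ j < L, ∀ s, t (j + 1) < s → s < t j →
        ∀ᶠ μ' in 𝓝 (D κ α s), Lin g c (ds (j + 1)) μ') ∧
      (∀ j < L, Step g c κ (ds j) (ds (j + 1)) (φ j) (D κ α (t j))) ∧
      ((t L = 0 ∧ Lin g c (ds L) κ) ∨ (0 < t L ∧ Mfs g c κ (ds L) (φ L) (D κ α (t L)))) := by
  classical
  -- large parameters
  obtain ⟨b, hb0, hbE, hbig⟩ : ∃ b : ℚ, 0 < b ∧ (∀ r ∈ Ex g κ α, r < b) ∧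
      ∀ᶠ μ' in 𝓝 (D κ α b), Lin g c δ μ' := by
    have h1 : ∀ᶠ s : ℚ in 𝓝 0, ∀ᶠ μ' in 𝓝 (α + s • κ), Lin g c δ μ' := by
      have hc1 : Continuous fun s : ℚ => α + s • κ := by fun_prop
      have h2 := hc1.tendsto 0
      rw [zero_smul, add_zero] at h2
      exact h2.eventually hα.eventually_nhds
    have h2 : ∀ᶠ s : ℚ in 𝓝[>] 0, ∀ r ∈ Ex g κ α, r * s < 1 := by
      rw [eventually_all_finset]
      intro r _
      have hc : Continuous fun s : ℚ => r * s := by fun_prop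
      have h3 := hc.tendsto 0
      rw [mul_zero] at h3
      exact (h3.eventually (gt_mem_nhds one_pos)).filter_mono nhdsWithin_le_nhds
    obtain ⟨s, ⟨hs1, hs2⟩, hs0⟩ := (((h1.filter_mono nhdsWithin_le_nhds).and h2).and
      (self_mem_nhdsWithin : ∀ᶠ s : ℚ in 𝓝[>] 0, 0 < s)).exists
    refine ⟨s⁻¹, inv_pos.2 hs0, fun r hr => ?_, ?_⟩
    · have h3 := hs2 r hr
      rw [← one_div, lt_div_iff₀ hs0]
      exact h3
    · have hD : D κ α s⁻¹ = s⁻¹ • (α + s • κ) := by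
        rw [D, smul_add, smul_smul, inv_mul_cancel₀ hs0.ne', one_smul, add_comm]
      have hc2 : Continuous fun μ' : Fin p → ℚ => s • μ' := by fun_prop
      have h3 := hc2.tendsto (D κ α s⁻¹)
      have h4 : s • D κ α s⁻¹ = α + s • κ := by
        rw [hD, smul_smul, mul_inv_cancel₀ hs0.ne', one_smul]
      rw [h4] at h3
      refine (h3.eventually hs1).mono fun μ' h5 => ?_
      have h6 := lin_smul h5 (inv_pos.2 hs0)
      rwa [smul_smul, inv_mul_cancel₀ hs0.ne', one_smul] at h6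
  have hbE' : b ∉ Ex g κ α := fun h1 => lt_irrefl _ (hbE b h1)
  have hgen := gen_D hG hbE'
  obtain ⟨d, hd⟩ := cell_lin h hgen hbig.self_of_nhds.1
  have hdδ : d = δ := by
    funext P
    refine eq_of_near ((hbig.and (near_SC hgen)).mono fun μ' h1 => ?_)
    exact lin_unique (hd _ h1.2.cell) h1.1 P
  rw [hdδ] at hd
  obtain ⟨L, t, ds, φ, hC⟩ := chain hG h _ b δ hb0 hbE' le_rfl hd
  refine ⟨L, t, ds, φ, hC.len.trans ?_, hC.zero, hC.mono, hC.nonneg, ?_, hC.amp, hC.step,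
    hC.fin⟩
  · exact (Finset.card_le_card (Finset.filter_subset _ _)).trans (card_Ex g κ α)
  · intro s hs
    rcases le_or_gt s b with h1 | h1
    · exact hC.amp0 s hs h1
    · rw [hC.zero]
      refine amp_of_SC ?_ hd
      exact sc_gap hG h1 hbE' (fun h2 => lt_asymm (hbE s h2) h1) fun r hr h2 _ =>
        lt_asymm (hbE r hr) h2

/-- vectors in general position near a given vector -/
theorem exists_generic {J : Type} (ξ : J → (Fin p → ℚ) →ₗ[ℚ] ℚ) (S : Finset J) (α₀ : Fin p → ℚ)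
    {U : Set (Fin p → ℚ)} (hU : U ∈ 𝓝 α₀) : ∃ α ∈ U, ∀ x ∈ S, ξ x ≠ 0 → ξ x α ≠ 0 := by
  classical
  suffices h : ∃ᶠ α in 𝓝 α₀, ∀ x ∈ S, ξ x ≠ 0 → ξ x α ≠ 0 by
    obtain ⟨α, h1, h2⟩ := (h.and_eventually hU).exists
    exact ⟨α, h2, h1⟩
  induction S using Finset.induction_on with
  | empty =>
    refine (Eventually.of_forall fun α x hx => ?_).frequently
    exact absurd hx (Finset.notMem_empty x)
  | insert x S hx ih =>
    by_cases hx0 : ξ x = 0
    · refine ih.mono fun α h1 y hy hy0 => ?_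
      rw [Finset.mem_insert] at hy
      rcases hy with rfl | hy
      · exact absurd hx0 hy0
      · exact h1 y hy hy0
    rw [frequently_iff] at ih ⊢
    intro V hV
    obtain ⟨W, hWV, hWo, hW⟩ := mem_nhds_iff.1 hV
    obtain ⟨α, hαW, hα⟩ := ih (hWo.mem_nhds hW)
    obtain ⟨u, hu⟩ : ∃ u, ξ x u ≠ 0 := by
      by_contra hcon
      push Not at hcon
      exact hx0 (LinearMap.ext hcon)
    have hc1 : Continuous fun θ : ℚ => α + θ • u := by fun_prop
    have h1 := hc1.tendsto 0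
    rw [zero_smul, add_zero] at h1
    have h2 : ∀ᶠ θ : ℚ in 𝓝[>] 0, α + θ • u ∈ W :=
      (h1.eventually (hWo.mem_nhds hαW)).filter_mono nhdsWithin_le_nhds
    have h3 : ∀ᶠ θ : ℚ in 𝓝[>] 0, ∀ y ∈ insert x S, ξ y ≠ 0 → ξ y (α + θ • u) ≠ 0 := by
      rw [eventually_all_finset]
      intro y hy
      by_cases hy0 : ξ y = 0
      · exact Eventually.of_forall fun _ h4 => absurd hy0 h4
      by_cases hyα : ξ y α = 0
      · -- then `y = x`
        have hyx : ξ y u ≠ 0 := by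
          rw [Finset.mem_insert] at hy
          rcases hy with rfl | hy
          · exact hu
          · exact absurd hyα (hα y hy hy0)
        filter_upwards [self_mem_nhdsWithin] with θ hθ _
        have hθ' : (0 : ℚ) < θ := hθ
        rw [map_add, hyα, zero_add, map_smul, smul_eq_mul]
        exact mul_ne_zero hθ'.ne' hyx
      · have hc : Continuous fun θ : ℚ => ξ y (α + θ • u) := (cont _).comp hc1
        have h4 := hc.tendsto 0
        rw [zero_smul, add_zero] at h4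
        exact ((h4.eventually_ne hyα).filter_mono nhdsWithin_le_nhds).mono fun _ h5 _ => h5
    obtain ⟨θ, h4, h5⟩ := (h2.and h3).exists
    exact ⟨_, hWV h4, h5⟩

theorem exists_GP (g : Fin N0 → Fin p → ℚ) (κ α₀ : Fin p → ℚ) {U : Set (Fin p → ℚ)}
    (hU : U ∈ 𝓝 α₀) : ∃ α ∈ U, GP g κ α := by
  let J := (Finset (Fin N0) × (Fin N0 ⊕ Fin p))
  let ξ : J ⊕ (J × J) → (Fin p → ℚ) →ₗ[ℚ] ℚ := fun x => match x with
    | Sum.inl x => Fn g x
    | Sum.inr (x, y) => Fn g x κ • Fn g y - Fn g y κ • Fn g x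
  obtain ⟨α, hα, h⟩ := exists_generic ξ Finset.univ α₀ hU
  exact ⟨α, hα, ⟨fun x hx => h (Sum.inl x) (Finset.mem_univ _) hx,
    fun x y hxy => h (Sum.inr (x, y)) (Finset.mem_univ _) hxy⟩⟩

end Pool.Agent.T9h79.MM
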