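import Mathlib

/-!
# Rational linear programs with a family of costs: basic solutions and chambers

`g b` are finitely many rational vectors, `c P b` the cost of `g b` for the index `P`, bounded below
by `- δ P (g b)` for a linear function `δ P`. The minimal cost of a nonnegative combination of the
`g b` with the value `μ` is a linear function of `μ` on the chambers of a finite arrangement of
rational hyperplanes, which does not depend on `P`.
-/

set_option autoImplicit false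

namespace Pool.Agent.T9h79.MM

open Filter Topology

variable {p N0 : ℕ} {ι : Type}

/-- the value of a combination -/
def T (g : Fin N0 → Fin p → ℚ) : (Fin N0 → ℚ) →ₗ[ℚ] (Fin p → ℚ) := Fintype.linearCombination ℚ g

/-- the cost of a combination -/
def cost (c : ι → Fin N0 → ℚ) (P : ι) : (Fin N0 → ℚ) →ₗ[ℚ] ℚ := Fintype.linearCombination ℚ (c P)

theorem T_apply (g : Fin N0 → Fin p → ℚ) (e : Fin N0 → ℚ) : T g e = ∑ b, e b • g b :=
  Fintype.linearCombination_apply ℚ g e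

theorem cost_apply (c : ι → Fin N0 → ℚ) (P : ι) (e : Fin N0 → ℚ) : cost c P e = ∑ b, e b * c P b :=
  Fintype.linearCombination_apply ℚ (c P) e

/-- `μ` is a nonnegative combination -/
def Eff (g : Fin N0 → Fin p → ℚ) (μ : Fin p → ℚ) : Prop :=
  ∃ e : Fin N0 → ℚ, 0 ≤ e ∧ T g e = μ

/-- the vectors with numbers in `B` are independent -/
def Ind (g : Fin N0 → Fin p → ℚ) (B : Finset (Fin N0)) : Prop :=
  ∀ s : Fin N0 → ℚ, (∀ b, b ∉ B → s b = 0) → T g s = 0 → s = 0

/-- the support -/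
def supp (e : Fin N0 → ℚ) : Finset (Fin N0) := Finset.univ.filter fun b => e b ≠ 0

theorem mem_supp {e : Fin N0 → ℚ} {b : Fin N0} : b ∈ supp e ↔ e b ≠ 0 := by simp [supp]

/-- the costs are bounded below by the linear functions `- δ P` -/
def Bdd (g : Fin N0 → Fin p → ℚ) (c : ι → Fin N0 → ℚ) (δ : ι → (Fin p → ℚ) →ₗ[ℚ] ℚ) : Prop :=
  ∀ P b, - δ P (g b) ≤ c P b

theorem Bdd.ge {g : Fin N0 → Fin p → ℚ} {c : ι → Fin N0 → ℚ} {δ : ι → (Fin p → ℚ) →ₗ[ℚ] ℚ}
    (h : Bdd g c δ) (P : ι) {e : Fin N0 → ℚ} (he : 0 ≤ e) : - δ P (T g e) ≤ cost c P e := by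
  rw [T_apply, cost_apply, map_sum, ← Finset.sum_neg_distrib]
  refine Finset.sum_le_sum fun b _ => ?_
  rw [map_smul, smul_eq_mul, ← mul_neg]
  exact mul_le_mul_of_nonneg_left (h P b) (he b)

/-- **Basic solutions.** -/
theorem basic {g : Fin N0 → Fin p → ℚ} {c : ι → Fin N0 → ℚ} {δ : ι → (Fin p → ℚ) →ₗ[ℚ] ℚ}
    (h : Bdd g c δ) (P : ι) : ∀ (n : ℕ) (e : Fin N0 → ℚ), 0 ≤ e → (supp e).card ≤ n →
      ∃ e' : Fin N0 → ℚ, 0 ≤ e' ∧ T g e' = T g e ∧ Ind g (supp e') ∧
        cost c P e' ≤ cost c P e := by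
  intro n
  induction n with
  | zero =>
    intro e he hn
    refine ⟨e, he, rfl, ?_, le_rfl⟩
    have h1 : supp e = ∅ := Finset.card_eq_zero.1 (Nat.le_zero.1 hn)
    intro s hs _
    funext b
    exact hs b (by rw [h1]; exact Finset.notMem_empty b)
  | succ n ih =>
    intro e he hn
    by_cases hI : Ind g (supp e)
    · exact ⟨e, he, rfl, hI, le_rfl⟩
    -- a relation
    have hrel : ∃ s : Fin N0 → ℚ, (∀ b, b ∉ supp e → s b = 0) ∧ T g s = 0 ∧ cost c P s ≤ 0 ∧
        ∃ b, s b < 0 := by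
      rw [Ind] at hI
      push Not at hI
      obtain ⟨s, hs, hT, hs0⟩ := hI
      obtain ⟨b0, hb0⟩ : ∃ b, s b ≠ 0 := by
        by_contra hcon
        push Not at hcon
        exact hs0 (funext hcon)
      have hge : ∀ s' : Fin N0 → ℚ, T g s' = 0 → 0 ≤ s' → 0 ≤ cost c P s' := by
        intro s' h1 h2
        have h3 := h.ge P h2
        rwa [h1, map_zero, neg_zero] at h3
      -- choose the sign
      have key : ∀ s' : Fin N0 → ℚ, (∀ b, b ∉ supp e → s' b = 0) → T g s' = 0 → s' ≠ 0 →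
          cost c P s' ≤ 0 → ∃ s : Fin N0 → ℚ, (∀ b, b ∉ supp e → s b = 0) ∧ T g s = 0 ∧
            cost c P s ≤ 0 ∧ ∃ b, s b < 0 := by
        intro s' h1 h2 h3 h4
        by_cases hneg : ∃ b, s' b < 0
        · exact ⟨s', h1, h2, h4, hneg⟩
        push Not at hneg
        have h5 := hge s' h2 hneg
        obtain ⟨b1, hb1⟩ : ∃ b, s' b ≠ 0 := by
          by_contra hcon
          push Not at hcon
          exact h3 (funext hcon)
        refine ⟨-s', fun b hb => by rw [Pi.neg_apply, h1 b hb, neg_zero],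
          by rw [map_neg, h2, neg_zero], by rw [map_neg]; linarith, b1, ?_⟩
        rw [Pi.neg_apply, neg_lt_zero]
        exact lt_of_le_of_ne (hneg b1) (Ne.symm hb1)
      rcases le_total (cost c P s) 0 with h1 | h1
      · exact key s hs hT hs0 h1
      · refine key (-s) (fun b hb => by rw [Pi.neg_apply, hs b hb, neg_zero])
          (by rw [map_neg, hT, neg_zero]) (neg_ne_zero.2 hs0) ?_
        rw [map_neg]
        linarith
    obtain ⟨s, hs, hT, hcs, b0, hb0⟩ := hrel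
    -- the step
    obtain ⟨b1, hb1, hmin⟩ := Finset.exists_min_image (Finset.univ.filter fun b => s b < 0)
      (fun b => e b / (- s b)) ⟨b0, by simp [hb0]⟩
    have hb1' : s b1 < 0 := by simpa using hb1
    obtain ⟨θ, hθ⟩ : ∃ θ, θ = e b1 / (- s b1) := ⟨_, rfl⟩
    have hθ0 : 0 ≤ θ := by
      rw [hθ]
      exact div_nonneg (he b1) (by linarith)
    have hθ1 : θ * s b1 = - e b1 := by
      have h9 : -s b1 ≠ 0 := by
        intro h8
        linarith
      rw [hθ, div_mul_eq_mul_div, div_eq_iff h9]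
      ring
    have he2 : 0 ≤ e + θ • s := by
      intro b
      rw [Pi.zero_apply, Pi.add_apply, Pi.smul_apply, smul_eq_mul]
      rcases le_or_gt 0 (s b) with h1 | h1
      · have := he b
        rw [Pi.zero_apply] at this
        positivity
      · have h2 := hmin b (by simp [h1])
        rw [← hθ, le_div_iff₀ (by linarith)] at h2
        linarith
    have hsub : supp (e + θ • s) ⊆ (supp e).erase b1 := by
      intro b hb
      rw [mem_supp, Pi.add_apply, Pi.smul_apply, smul_eq_mul] at hb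
      rw [Finset.mem_erase]
      constructor
      · rintro rfl
        rw [hθ1] at hb
        exact hb (add_neg_cancel _)
      · by_contra h1
        rw [hs b h1] at hb
        rw [mem_supp, not_not] at h1
        rw [h1] at hb
        exact hb (by ring)
    have hb1e : b1 ∈ supp e := by
      by_contra h1
      rw [hs b1 h1] at hb1'
      exact lt_irrefl _ hb1'
    have hcard : (supp (e + θ • s)).card ≤ n := by
      have h1 := Finset.card_le_card hsub
      rw [Finset.card_erase_of_mem hb1e] at h1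
      omega
    obtain ⟨e', h1, h2, h3, h4⟩ := ih (e + θ • s) he2 hcard
    refine ⟨e', h1, by rw [h2, map_add, map_smul, hT, smul_zero, add_zero], h3, h4.trans ?_⟩
    rw [map_add, map_smul, smul_eq_mul]
    nlinarith

/-- the coordinates with respect to independent vectors -/
theorem exists_coord {g : Fin N0 → Fin p → ℚ} {B : Finset (Fin N0)} (hB : Ind g B) :
    ∃ L : (Fin p → ℚ) →ₗ[ℚ] (Fin N0 → ℚ), (∀ s : Fin N0 → ℚ, (∀ b, b ∉ B → s b = 0) →
      L (T g s) = s) ∧ ∀ μ b, b ∉ B → L μ b = 0 := by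
  let S : Submodule ℚ (Fin N0 → ℚ) :=
    { carrier := {s | ∀ b, b ∉ B → s b = 0}
      add_mem' := by
        intro s t hs ht b hb
        rw [Pi.add_apply, hs b hb, ht b hb, add_zero]
      zero_mem' := fun b _ => rfl
      smul_mem' := by
        intro a s hs b hb
        rw [Pi.smul_apply, hs b hb, smul_zero] }
  have hinj : LinearMap.ker ((T g).comp S.subtype) = ⊥ := by
    rw [LinearMap.ker_eq_bot']
    rintro ⟨s, hs⟩ h
    exact Subtype.ext (hB s hs h)
  obtain ⟨L, hL⟩ := LinearMap.exists_leftInverse_of_injective _ hinj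
  refine ⟨S.subtype.comp L, fun s hs => ?_, fun μ b hb => (L μ).2 b hb⟩
  have h1 := LinearMap.congr_fun hL ⟨s, hs⟩
  exact congrArg Subtype.val h1

open Classical in
/-- the coordinates -/
noncomputable def Lc (g : Fin N0 → Fin p → ℚ) (B : Finset (Fin N0)) :
    (Fin p → ℚ) →ₗ[ℚ] (Fin N0 → ℚ) :=
  if h : Ind g B then (exists_coord h).choose else 0

theorem Lc_T {g : Fin N0 → Fin p → ℚ} {B : Finset (Fin N0)} (hB : Ind g B) {s : Fin N0 → ℚ}
    (hs : ∀ b, b ∉ B → s b = 0) : Lc g B (T g s) = s := by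
  rw [Lc, dif_pos hB]
  exact (exists_coord hB).choose_spec.1 s hs

theorem Lc_supp {g : Fin N0 → Fin p → ℚ} {B : Finset (Fin N0)} (e : Fin N0 → ℚ)
    (hB : Ind g (supp e)) : Lc g (supp e) (T g e) = e :=
  Lc_T hB fun b hb => by rwa [mem_supp, not_not] at hb

/-- **The optimum is attained at a basic solution.** -/
theorem exists_opt {g : Fin N0 → Fin p → ℚ} {c : ι → Fin N0 → ℚ}
    {δ : ι → (Fin p → ℚ) →ₗ[ℚ] ℚ} (h : Bdd g c δ) (P : ι) {μ : Fin p → ℚ} (hμ : Eff g μ) :
    ∃ e : Fin N0 → ℚ, 0 ≤ e ∧ T g e = μ ∧ Ind g (supp e) ∧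
      ∀ e' : Fin N0 → ℚ, 0 ≤ e' → T g e' = μ → cost c P e ≤ cost c P e' := by
  classical
  let F : Finset (Finset (Fin N0)) := Finset.univ.filter fun B =>
    Ind g B ∧ supp (Lc g B μ) = B ∧ 0 ≤ Lc g B μ ∧ T g (Lc g B μ) = μ
  have hmem : ∀ e : Fin N0 → ℚ, 0 ≤ e → T g e = μ → Ind g (supp e) → supp e ∈ F ∧
      Lc g (supp e) μ = e := by
    intro e h1 h2 h3
    have h4 : Lc g (supp e) μ = e := by
      rw [← h2]
      exact Lc_supp (B := supp e) e h3
    refine ⟨?_, h4⟩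
    simp only [F, Finset.mem_filter, Finset.mem_univ, true_and]
    rw [h4]
    exact ⟨h3, rfl, h1, h2⟩
  obtain ⟨e0, he0, hT0⟩ := hμ
  obtain ⟨e1, h1, h2, h3, -⟩ := basic h P _ e0 he0 le_rfl
  obtain ⟨B, hB, hmin⟩ := Finset.exists_min_image F (fun B => cost c P (Lc g B μ))
    ⟨_, (hmem e1 h1 (h2.trans hT0) h3).1⟩
  simp only [F, Finset.mem_filter, Finset.mem_univ, true_and] at hB
  obtain ⟨hB1, hB2, hB3, hB4⟩ := hB
  refine ⟨Lc g B μ, hB3, hB4, by rwa [hB2], fun e' he' hT' => ?_⟩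
  obtain ⟨e2, h4, h5, h6, h7⟩ := basic h P _ e' he' le_rfl
  obtain ⟨h8, h9⟩ := hmem e2 h4 (h5.trans hT') h6
  have h10 := hmin _ h8
  rw [h9] at h10
  exact h10.trans h7

/-- the arrangement: the coordinates and the equations of the spans -/
noncomputable def Fn (g : Fin N0 → Fin p → ℚ) :
    Finset (Fin N0) × (Fin N0 ⊕ Fin p) → (Fin p → ℚ) →ₗ[ℚ] ℚ
  | (B, Sum.inl b) => (LinearMap.proj b).comp (Lc g B)
  | (B, Sum.inr i) => (LinearMap.proj i).comp (LinearMap.id - (T g).comp (Lc g B))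

/-- `μ` is in no hyperplane of the arrangement -/
def Gen (g : Fin N0 → Fin p → ℚ) (μ : Fin p → ℚ) : Prop := ∀ x, Fn g x ≠ 0 → Fn g x μ ≠ 0

/-- `μ'` is in the closed chamber of `μ` -/
def Cell (g : Fin N0 → Fin p → ℚ) (μ μ' : Fin p → ℚ) : Prop := ∀ x, 0 ≤ Fn g x μ * Fn g x μ'

/-- `μ'` is in the open chamber of `μ` -/
def SC (g : Fin N0 → Fin p → ℚ) (μ μ' : Fin p → ℚ) : Prop :=
  ∀ x, Fn g x ≠ 0 → 0 < Fn g x μ * Fn g x μ'

theorem SC.cell {g : Fin N0 → Fin p → ℚ} {μ μ' : Fin p → ℚ} (h : SC g μ μ') : Cell g μ μ' := by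
  intro x
  by_cases hx : Fn g x = 0
  · rw [hx]
    simp
  · exact (h x hx).le

theorem SC.symm {g : Fin N0 → Fin p → ℚ} {μ μ' : Fin p → ℚ} (h : SC g μ μ') : SC g μ' μ :=
  fun x hx => by
    rw [mul_comm]
    exact h x hx

theorem SC.gen {g : Fin N0 → Fin p → ℚ} {μ μ' : Fin p → ℚ} (h : SC g μ μ') : Gen g μ :=
  fun x hx h0 => by
    have := h x hx
    rw [h0, zero_mul] at this
    exact lt_irrefl _ this

theorem mul_pos_trans {a b c : ℚ} (h1 : 0 < a * b) (h2 : 0 < b * c) : 0 < a * c := by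
  have hb : b ≠ 0 := by
    rintro rfl
    simp at h1
  have h3 : 0 < (a * b) * (b * c) := mul_pos h1 h2
  have h4 : (a * b) * (b * c) = (b * b) * (a * c) := by ring
  rw [h4] at h3
  exact (pos_iff_pos_of_mul_pos h3).1 (mul_self_pos.2 hb)

theorem SC.trans {g : Fin N0 → Fin p → ℚ} {μ μ' μ'' : Fin p → ℚ} (h : SC g μ μ')
    (h' : SC g μ' μ'') : SC g μ μ'' := fun x hx => mul_pos_trans (h x hx) (h' x hx)

/-- basic solutions on the closed chamber -/
theorem cell_feas {g : Fin N0 → Fin p → ℚ} {μ μ' : Fin p → ℚ} (hμ : Gen g μ)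
    {e : Fin N0 → ℚ} (he : 0 ≤ e) (hT : T g e = μ) (hI : Ind g (supp e)) (h : Cell g μ μ') :
    0 ≤ Lc g (supp e) μ' ∧ T g (Lc g (supp e) μ') = μ' := by
  have hL : Lc g (supp e) μ = e := by
    rw [← hT]
    exact Lc_supp (B := supp e) e hI
  constructor
  · intro b
    rw [Pi.zero_apply]
    have h1 := h (supp e, Sum.inl b)
    have h2 := hμ (supp e, Sum.inl b)
    have h3 : ∀ ν, Fn g (supp e, Sum.inl b) ν = Lc g (supp e) ν b := fun ν => rfl
    rw [h3, h3, hL] at h1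
    by_cases h4 : Fn g (supp e, Sum.inl b) = 0
    · rw [← h3, h4]
      simp
    · have h5 := h2 h4
      rw [h3, hL] at h5
      have h6 : 0 < e b := lt_of_le_of_ne (he b) (Ne.symm h5)
      exact nonneg_of_mul_nonneg_right h1 h6
  · funext i
    have h2 := hμ (supp e, Sum.inr i)
    have h3 : ∀ ν, Fn g (supp e, Sum.inr i) ν = ν i - T g (Lc g (supp e) ν) i := fun ν => rfl
    have h4 : Fn g (supp e, Sum.inr i) = 0 := by
      by_contra h4
      refine h2 h4 ?_
      rw [h3, hL, hT, sub_self]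
    have h5 := h3 μ'
    rw [h4, LinearMap.zero_apply] at h5
    linarith

theorem exists_lam {J : Type} [Fintype J] (A B : J → ℚ) (hA : ∀ x, 0 ≤ A x)
    (hB : ∀ x, A x = 0 → B x ≤ 0) : ∃ l : ℚ, 0 < l ∧ l < 1 ∧ ∀ x, l * B x ≤ A x := by
  have h0 : 0 ≤ ∑ x, |B x| / A x := Finset.sum_nonneg fun x _ => div_nonneg (abs_nonneg _) (hA x)
  have h2 : (0 : ℚ) < 2 + ∑ x, |B x| / A x := by linarith
  refine ⟨1 / (2 + ∑ x, |B x| / A x), by positivity, ?_, fun x => ?_⟩
  · rw [div_lt_one h2]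
    linarith
  · rcases (hA x).eq_or_lt with h | h
    · have h1 := hB x h.symm
      rw [← h]
      exact mul_nonpos_of_nonneg_of_nonpos (by positivity) h1
    · have h1 : |B x| / A x ≤ ∑ x, |B x| / A x :=
        Finset.single_le_sum (f := fun x => |B x| / A x)
          (fun x _ => div_nonneg (abs_nonneg _) (hA x)) (Finset.mem_univ x)
      rw [div_mul_eq_mul_div, one_mul, div_le_iff₀ h2]
      have h3 : |B x| ≤ A x * ∑ x, |B x| / A x := by
        rw [div_le_iff₀ h] at h1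
        linarith
      have h4 := le_abs_self (B x)
      linarith

/-- `μ` is a combination, and the minimal cost is `- d P μ` for all `P` -/
def Lin (g : Fin N0 → Fin p → ℚ) (c : ι → Fin N0 → ℚ) (d : ι → (Fin p → ℚ) →ₗ[ℚ] ℚ)
    (μ : Fin p → ℚ) : Prop :=
  Eff g μ ∧ ∀ P, (∀ e : Fin N0 → ℚ, 0 ≤ e → T g e = μ → - d P μ ≤ cost c P e) ∧
    ∃ e : Fin N0 → ℚ, 0 ≤ e ∧ T g e = μ ∧ cost c P e = - d P μ

/-- **The minimal costs are linear on the closed chambers.** -/
theorem cell_lin {g : Fin N0 → Fin p → ℚ} {c : ι → Fin N0 → ℚ}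
    {δ : ι → (Fin p → ℚ) →ₗ[ℚ] ℚ} (h : Bdd g c δ) {μ : Fin p → ℚ} (hμ : Gen g μ)
    (hE : Eff g μ) : ∃ d : ι → (Fin p → ℚ) →ₗ[ℚ] ℚ, ∀ μ', Cell g μ μ' → Lin g c d μ' := by
  choose e he hT hI hopt using fun P => exists_opt h P hE
  refine ⟨fun P => - (cost c P).comp (Lc g (supp (e P))), fun μ' hμ' => ⟨?_, fun P => ?_⟩⟩
  · obtain ⟨e0, he0, hT0, hI0, -⟩ := exists_opt (ι := Unit) (c := fun _ _ => 0) (δ := fun _ => 0)
      (g := g) (fun P b => by simp) () hE
    have h1 := cell_feas hμ he0 hT0 hI0 hμ'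
    exact ⟨_, h1.1, h1.2⟩
  obtain ⟨h1, h2⟩ := cell_feas hμ (he P) (hT P) (hI P) hμ'
  have hL : Lc g (supp (e P)) μ = e P := by
    conv_lhs => rw [← hT P]
    exact Lc_supp (B := supp (e P)) (e P) (hI P)
  constructor
  · intro f hf hTf
    have hd : - (- (cost c P).comp (Lc g (supp (e P)))) μ' = cost c P (Lc g (supp (e P)) μ') := by
      simp
    rw [hd]
    obtain ⟨l, hl0, hl1, hl⟩ := exists_lam (fun x => Fn g x μ * Fn g x μ)
      (fun x => Fn g x μ * Fn g x μ') (fun x => mul_self_nonneg _) (fun x hx => by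
        rw [mul_self_eq_zero.1 hx, zero_mul])
    obtain ⟨ν, hν⟩ : ∃ ν, ν = (1 - l)⁻¹ • (μ - l • μ') := ⟨_, rfl⟩
    have hl2 : 0 < 1 - l := by linarith
    have hcomb : l • μ' + (1 - l) • ν = μ := by
      rw [hν, smul_smul, mul_inv_cancel₀ hl2.ne', one_smul]
      abel
    have hcν : Cell g μ ν := by
      intro x
      have h3 : Fn g x ν = (1 - l)⁻¹ * (Fn g x μ - l * Fn g x μ') := by
        rw [hν, map_smul, map_sub, map_smul, smul_eq_mul, smul_eq_mul]
      rw [h3, mul_left_comm]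
      refine mul_nonneg (inv_nonneg.2 hl2.le) ?_
      have h4 : l * (Fn g x μ * Fn g x μ') ≤ Fn g x μ * Fn g x μ := hl x
      linarith [mul_sub (Fn g x μ) (Fn g x μ) (l * Fn g x μ'),
        mul_left_comm (Fn g x μ) l (Fn g x μ')]
    obtain ⟨h5, h6⟩ := cell_feas hμ (he P) (hT P) (hI P) hcν
    have h7 := hopt P (l • f + (1 - l) • Lc g (supp (e P)) ν)
      (add_nonneg (smul_nonneg hl0.le hf) (smul_nonneg hl2.le h5))
      (by rw [map_add, map_smul, map_smul, hTf, h6, hcomb])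
    have h8 : cost c P (e P) = l * cost c P (Lc g (supp (e P)) μ') +
        (1 - l) * cost c P (Lc g (supp (e P)) ν) := by
      conv_lhs => rw [← hL, ← hcomb]
      rw [map_add, map_smul, map_smul, map_add, map_smul, map_smul, smul_eq_mul, smul_eq_mul]
    rw [h8, map_add, map_smul, map_smul, smul_eq_mul, smul_eq_mul] at h7
    have h9 : l * cost c P (Lc g (supp (e P)) μ') ≤ l * cost c P f := by linarith
    exact le_of_mul_le_mul_left h9 hl0
  · exact ⟨_, h1, h2, by simp⟩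

/-- the nonnegative combinations contain a generic point together with its open chamber -/
theorem eff_of_SC {g : Fin N0 → Fin p → ℚ} {μ μ' : Fin p → ℚ} (h : SC g μ μ')
    (hE : Eff g μ) : Eff g μ' := by
  obtain ⟨e0, he0, hT0, hI0, -⟩ := exists_opt (ι := Unit) (c := fun _ _ => 0) (δ := fun _ => 0)
    (g := g) (fun P b => by simp) () hE
  have h1 := cell_feas h.gen he0 hT0 hI0 h.cell
  exact ⟨_, h1.1, h1.2⟩

/-- uniform denominators for the optimal solutions -/
theorem exists_den {g : Fin N0 → Fin p → ℚ} {c : ι → Fin N0 → ℚ}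
    {δ : ι → (Fin p → ℚ) →ₗ[ℚ] ℚ} (h : Bdd g c δ) {μ : Fin p → ℚ} (hE : Eff g μ) :
    ∃ m : ℕ, 1 ≤ m ∧ ∀ P, ∃ e : Fin N0 → ℕ, (∑ b, (e b : ℚ) • g b = (m : ℚ) • μ) ∧
      ∀ e' : Fin N0 → ℚ, 0 ≤ e' → T g e' = μ → ∑ b, (e b : ℚ) * c P b ≤ m * cost c P e' := by
  classical
  obtain ⟨m, hm⟩ : ∃ m : ℕ, m = ∏ x : Finset (Fin N0) × Fin N0, (Lc g x.1 μ x.2).den :=
    ⟨_, rfl⟩
  have hm1 : 1 ≤ m := by
    rw [hm]
    exact Nat.one_le_iff_ne_zero.2 (Finset.prod_ne_zero_iff.2 fun x _ => (Lc g x.1 μ x.2).den_nz)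
  refine ⟨m, hm1, fun P => ?_⟩
  obtain ⟨e, he, hT, hI, hopt⟩ := exists_opt h P hE
  have hL : Lc g (supp e) μ = e := by
    rw [← hT]
    exact Lc_supp (B := supp e) e hI
  have hint : ∀ b, ∃ k : ℕ, (m : ℚ) * e b = k := by
    intro b
    have h1 : (e b).den ∣ m := by
      rw [hm]
      have h2 : (e b).den = (Lc g (supp e, b).1 μ (supp e, b).2).den := by
        simp only
        rw [hL]
      rw [h2]
      exact Finset.dvd_prod_of_mem (fun x : Finset (Fin N0) × Fin N0 => (Lc g x.1 μ x.2).den)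
        (Finset.mem_univ (supp e, b))
    obtain ⟨k, hk⟩ := h1
    have h3 : 0 ≤ (e b).num := Rat.num_nonneg.2 (he b)
    refine ⟨k * (e b).num.toNat, ?_⟩
    have h4 : (((e b).num.toNat : ℕ) : ℚ) = ((e b).num : ℚ) := by
      have : (((e b).num.toNat : ℕ) : ℤ) = (e b).num := Int.toNat_of_nonneg h3
      exact_mod_cast congrArg (Int.cast : ℤ → ℚ) this
    have h5 : ((e b).den : ℚ) * e b = (e b).num := by
      rw [mul_comm]
      exact Rat.mul_den_eq_num (e b)
    push_cast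
    rw [h4, ← h5, hk]
    push_cast
    ring
  choose k hk using hint
  refine ⟨k, ?_, fun e' h1 h2 => ?_⟩
  · rw [← hT, T_apply, Finset.smul_sum]
    refine Finset.sum_congr rfl fun b _ => ?_
    rw [smul_smul, hk b]
  · have h3 := hopt e' h1 h2
    have h4 : ∑ b, (k b : ℚ) * c P b = m * cost c P e := by
      rw [cost_apply, Finset.mul_sum]
      refine Finset.sum_congr rfl fun b _ => ?_
      rw [← hk b]
      ring
    rw [h4]
    exact mul_le_mul_of_nonneg_left h3 (Nat.cast_nonneg m)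

end Pool.Agent.T9h79.MM
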