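import Pool.Agent.T9h79.MM.Lp

/-!
# The chambers along a segment in general position
-/

set_option autoImplicit false

namespace Pool.Agent.T9h79.MM

open Filter Topology

variable {p N0 : ℕ} {ι : Type}

/-- the points of the half-line -/
def D (κ α : Fin p → ℚ) (t : ℚ) : Fin p → ℚ := κ + t • α

theorem map_D (φ : (Fin p → ℚ) →ₗ[ℚ] ℚ) (κ α : Fin p → ℚ) (t : ℚ) :
    φ (D κ α t) = φ κ + t * φ α := by
  rw [D, map_add, map_smul, smul_eq_mul]

theorem D_zero (κ α : Fin p → ℚ) : D κ α 0 = κ := by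
  rw [D, zero_smul, add_zero]

/-- the parameters of the crossings -/
noncomputable def Ex (g : Fin N0 → Fin p → ℚ) (κ α : Fin p → ℚ) : Finset ℚ :=
  Finset.univ.image fun x => - Fn g x κ / Fn g x α

theorem mem_Ex {g : Fin N0 → Fin p → ℚ} {κ α : Fin p → ℚ} {r : ℚ} :
    r ∈ Ex g κ α ↔ ∃ x, - Fn g x κ / Fn g x α = r := by
  simp only [Ex, Finset.mem_image, Finset.mem_univ, true_and]

theorem card_Ex (g : Fin N0 → Fin p → ℚ) (κ α : Fin p → ℚ) :
    (Ex g κ α).card ≤ Fintype.card (Finset (Fin N0) × (Fin N0 ⊕ Fin p)) := by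
  rw [Ex]
  exact Finset.card_image_le

/-- the half-line is in general position -/
structure GP (g : Fin N0 → Fin p → ℚ) (κ α : Fin p → ℚ) : Prop where
  gen : Gen g α
  dis : ∀ x y, Fn g x κ • Fn g y - Fn g y κ • Fn g x ≠ 0 →
    (Fn g x κ • Fn g y - Fn g y κ • Fn g x) α ≠ 0

theorem root_between {k a s t : ℚ} (hst : s < t) (h : (k + s * a) * (k + t * a) < 0) :
    s < - k / a ∧ - k / a < t := by
  have ha : a ≠ 0 := by
    rintro rfl
    simp only [mul_zero, add_zero] at h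
    exact absurd h (not_lt.2 (mul_self_nonneg k))
  obtain ⟨r, hr⟩ : ∃ r, r = - k / a := ⟨_, rfl⟩
  have hk : k = - r * a := by
    rw [hr]
    field_simp
  rw [← hr]
  have h1 : (k + s * a) * (k + t * a) = ((s - r) * (t - r)) * (a * a) := by
    rw [hk]
    ring
  rw [h1] at h
  have h2 : 0 < a * a := mul_self_pos.2 ha
  have h3 : (s - r) * (t - r) < 0 := by
    by_contra hcon
    exact absurd h (not_lt.2 (mul_nonneg (not_lt.1 hcon) h2.le))
  constructor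
  · by_contra hcon
    exact absurd h3 (not_lt.2 (mul_nonneg (by linarith [not_lt.1 hcon])
      (by linarith [not_lt.1 hcon])))
  · by_contra hcon
    exact absurd h3 (not_lt.2 (mul_nonneg_of_nonpos_of_nonpos (by linarith [not_lt.1 hcon])
      (by linarith [not_lt.1 hcon])))

variable {g : Fin N0 → Fin p → ℚ} {κ α : Fin p → ℚ}

theorem gen_D (hG : GP g κ α) {t : ℚ} (ht : t ∉ Ex g κ α) : Gen g (D κ α t) := by
  intro x hx h0
  refine ht (mem_Ex.2 ⟨x, ?_⟩)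
  rw [map_D] at h0
  rw [div_eq_iff (hG.gen x hx)]
  linarith

/-- no crossings in between -/
theorem cell_gap {s t : ℚ} (hst : s < t) (h : ∀ r ∈ Ex g κ α, s < r → r < t → False) (x) :
    0 ≤ Fn g x (D κ α s) * Fn g x (D κ α t) := by
  by_contra hcon
  rw [not_le, map_D, map_D] at hcon
  obtain ⟨h1, h2⟩ := root_between hst hcon
  exact h _ (mem_Ex.2 ⟨x, rfl⟩) h1 h2

theorem sc_gap (hG : GP g κ α) {s t : ℚ} (hst : s < t) (hs : s ∉ Ex g κ α)
    (ht : t ∉ Ex g κ α) (h : ∀ r ∈ Ex g κ α, s < r → r < t → False) :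
    SC g (D κ α s) (D κ α t) := by
  intro x hx
  refine lt_of_le_of_ne (cell_gap hst h x) (Ne.symm ?_)
  exact mul_ne_zero (gen_D hG hs x hx) (gen_D hG ht x hx)

theorem cont (φ : (Fin p → ℚ) →ₗ[ℚ] ℚ) : Continuous φ := LinearMap.continuous_on_pi φ

theorem near_sign (g : Fin N0 → Fin p → ℚ) (μ : Fin p → ℚ) :
    ∀ᶠ μ' in 𝓝 μ, ∀ x, Fn g x μ ≠ 0 → 0 < Fn g x μ * Fn g x μ' := by
  rw [eventually_all]
  intro x
  by_cases hx : Fn g x μ = 0
  · exact Eventually.of_forall fun _ h => absurd hx h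
  · have h1 : Continuous fun μ' => Fn g x μ * Fn g x μ' := continuous_const.mul (cont _)
    have h2 : 0 < Fn g x μ * Fn g x μ := mul_self_pos.2 hx
    exact (h1.continuousAt.eventually (lt_mem_nhds h2)).mono fun _ h _ => h

theorem near_SC {μ : Fin p → ℚ} (h : Gen g μ) : ∀ᶠ μ' in 𝓝 μ, SC g μ μ' :=
  (near_sign g μ).mono fun _ h1 x hx => h1 x (h x hx)

theorem amp_of_SC {c : ι → Fin N0 → ℚ} {d : ι → (Fin p → ℚ) →ₗ[ℚ] ℚ} {μ ν : Fin p → ℚ}
    (h : SC g ν μ) (hd : ∀ μ', Cell g ν μ' → Lin g c d μ') : ∀ᶠ μ' in 𝓝 μ, Lin g c d μ' :=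
  (near_SC h.symm.gen).mono fun _ h1 => hd _ (h.trans h1).cell

/-- **The crossings.** -/
theorem exists_wall (hG : GP g κ α) {t : ℚ} (ht : 0 < t) (hE : t ∈ Ex g κ α) :
    ∃ φ : (Fin p → ℚ) →ₗ[ℚ] ℚ, 0 < φ α ∧ φ (D κ α t) = 0 ∧ φ κ < 0 ∧
      ∀ b, b ∉ Ex g κ α → (∀ r ∈ Ex g κ α, min b t < r → r < max b t → False) →
        ∀ᶠ μ' in 𝓝 (D κ α t), (0 ≤ (b - t) * φ μ' → Cell g (D κ α b) μ') ∧
          (0 < (b - t) * φ μ' → SC g (D κ α b) μ') := by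
  obtain ⟨x0, hx0⟩ := mem_Ex.1 hE
  have hα0 : Fn g x0 α ≠ 0 := by
    intro h
    rw [h, div_zero] at hx0
    exact ht.ne hx0
  have hκ0 : Fn g x0 κ = - t * Fn g x0 α := by
    rw [div_eq_iff hα0] at hx0
    linarith
  obtain ⟨σ, hσ, hσα⟩ : ∃ σ : ℚ, σ * σ = 1 ∧ 0 < σ * Fn g x0 α := by
    rcases lt_or_gt_of_ne hα0 with h | h
    · exact ⟨-1, by norm_num, by linarith⟩
    · exact ⟨1, by norm_num, by linarith⟩
  have hκ1 : Fn g x0 κ ≠ 0 := by
    rw [hκ0]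
    exact mul_ne_zero (by linarith) hα0
  have hprop : ∀ x, Fn g x ≠ 0 → Fn g x (D κ α t) = 0 →
      ∃ a : ℚ, a ≠ 0 ∧ Fn g x = a • (σ • Fn g x0) := by
    intro x hx h0
    have h1 : Fn g x κ = - t * Fn g x α := by
      rw [map_D] at h0
      linarith
    have h2 : Fn g x0 κ • Fn g x - Fn g x κ • Fn g x0 = 0 := by
      by_contra h2
      refine hG.dis x0 x h2 ?_
      rw [LinearMap.sub_apply, LinearMap.smul_apply, LinearMap.smul_apply, smul_eq_mul,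
        smul_eq_mul, hκ0, h1]
      ring
    have h3 : Fn g x = (Fn g x κ / Fn g x0 κ) • Fn g x0 := by
      rw [sub_eq_zero] at h2
      have h4 : Fn g x = (Fn g x0 κ)⁻¹ • (Fn g x0 κ • Fn g x) := by
        rw [smul_smul, inv_mul_cancel₀ hκ1, one_smul]
      conv_lhs => rw [h4, h2, smul_smul]
      rw [div_eq_inv_mul]
    refine ⟨(Fn g x κ / Fn g x0 κ) * σ, ?_, ?_⟩
    · intro h4
      apply hx
      have h5 : Fn g x κ / Fn g x0 κ = 0 := by
        have h6 : (Fn g x κ / Fn g x0 κ * σ) * σ = 0 := by rw [h4, zero_mul]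
        rwa [mul_assoc, hσ, mul_one] at h6
      rw [h3, h5, zero_smul]
    · rw [smul_smul, mul_assoc, hσ, mul_one]
      exact h3
  refine ⟨σ • Fn g x0, by simpa using hσα, ?_, ?_, ?_⟩
  · rw [LinearMap.smul_apply, map_D, hκ0]
    have : - t * Fn g x0 α + t * Fn g x0 α = 0 := by ring
    rw [this, smul_zero]
  · rw [LinearMap.smul_apply, hκ0, smul_eq_mul]
    have : σ * (-t * Fn g x0 α) = - (t * (σ * Fn g x0 α)) := by ring
    rw [this, neg_lt_zero]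
    exact mul_pos ht hσα
  · intro b hb hgap
    have hbt : b ≠ t := by
      rintro rfl
      exact hb hE
    have hgap' : ∀ x, 0 ≤ Fn g x (D κ α b) * Fn g x (D κ α t) := by
      intro x
      rcases lt_or_gt_of_ne hbt with h | h
      · refine cell_gap h (fun r hr h1 h2 => hgap r hr ?_ ?_) x
        · rwa [min_eq_left h.le]
        · rwa [max_eq_right h.le]
      · rw [mul_comm]
        refine cell_gap h (fun r hr h1 h2 => hgap r hr ?_ ?_) x
        · rwa [min_eq_right h.le]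
        · rwa [max_eq_left h.le]
    have hφb : (σ • Fn g x0) (D κ α b) = (b - t) * (σ * Fn g x0 α) := by
      rw [LinearMap.smul_apply, map_D, hκ0, smul_eq_mul]
      ring
    have key : ∀ μ', (∀ x, Fn g x (D κ α t) ≠ 0 → 0 < Fn g x (D κ α t) * Fn g x μ') →
        ∀ x, Fn g x ≠ 0 → 0 < Fn g x (D κ α b) * Fn g x μ' ∨
          ∃ a : ℚ, 0 < a ∧ Fn g x (D κ α b) * Fn g x μ' = a * ((b - t) * (σ • Fn g x0) μ') := by
      intro μ' hμ' x hx
      by_cases h0 : Fn g x (D κ α t) = 0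
      · right
        obtain ⟨a, ha, hax⟩ := hprop x hx h0
        refine ⟨a * a * (σ * Fn g x0 α), mul_pos (mul_self_pos.2 ha) hσα, ?_⟩
        have h1 : Fn g x (D κ α b) = a * ((b - t) * (σ * Fn g x0 α)) := by
          rw [← hφb]
          conv_lhs => rw [hax]
          rw [LinearMap.smul_apply, smul_eq_mul]
        have h2 : Fn g x μ' = a * (σ • Fn g x0) μ' := by
          conv_lhs => rw [hax]
          rw [LinearMap.smul_apply, smul_eq_mul]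
        rw [h1, h2]
        ring
      · left
        have h1 : 0 < Fn g x (D κ α b) * Fn g x (D κ α t) :=
          lt_of_le_of_ne (hgap' x) (Ne.symm (mul_ne_zero (gen_D hG hb x hx) h0))
        exact mul_pos_trans h1 (hμ' x h0)
    refine (near_sign g (D κ α t)).mono fun μ' hμ' => ⟨fun h x => ?_, fun h x hx => ?_⟩
    · by_cases hx : Fn g x = 0
      · rw [hx]
        simp
      rcases key μ' hμ' x hx with h1 | ⟨a, ha, h1⟩
      · exact h1.le
      · rw [h1]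
        exact mul_nonneg ha.le h
    · rcases key μ' hμ' x hx with h1 | ⟨a, ha, h1⟩
      · exact h1
      · rw [h1]
        exact mul_pos ha h

/-- the functions on the two sides of a wall agree at the wall -/
theorem wall_eq {c : ι → Fin N0 → ℚ} {d d' : ι → (Fin p → ℚ) →ₗ[ℚ] ℚ} {μ : Fin p → ℚ}
    (h1 : Lin g c d μ) (h2 : Lin g c d' μ) (P : ι) : d P μ = d' P μ := by
  obtain ⟨h3, e, he, hT, hc⟩ := h1.2 P
  obtain ⟨h4, e', he', hT', hc'⟩ := h2.2 P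
  have h5 := h3 e' he' hT'
  have h6 := h4 e he hT
  linarith

/-- concavity at a wall -/
theorem wall_key {c : ι → Fin N0 → ℚ} {d d' : ι → (Fin p → ℚ) →ₗ[ℚ] ℚ}
    {φ : (Fin p → ℚ) →ₗ[ℚ] ℚ} {μ : Fin p → ℚ} (hφ : φ μ = 0)
    (h : ∀ᶠ μ' in 𝓝 μ, (0 ≤ φ μ' → Lin g c d μ') ∧ (φ μ' ≤ 0 → Lin g c d' μ')) (P : ι)
    (w : Fin p → ℚ) (hw : 0 ≤ φ w) : d P w ≤ d' P w := by
  have hμ := h.self_of_nhds
  have h1 := hμ.1 hφ.ge
  have h2 := hμ.2 hφ.le
  have heq : ∀ P, d P μ = d' P μ := wall_eq h1 h2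
  have hc1 : Continuous fun θ : ℚ => μ + θ • w := by fun_prop
  have hc2 : Continuous fun θ : ℚ => μ - θ • w := by fun_prop
  have h3 : ∀ᶠ θ : ℚ in 𝓝 0, (0 ≤ φ (μ + θ • w) → Lin g c d (μ + θ • w)) ∧
      (φ (μ - θ • w) ≤ 0 → Lin g c d' (μ - θ • w)) := by
    have h4 := hc1.tendsto 0
    have h5 := hc2.tendsto 0
    rw [zero_smul, add_zero] at h4
    rw [zero_smul, sub_zero] at h5
    exact (h4.eventually h).and (h5.eventually h) |>.mono fun θ hθ => ⟨hθ.1.1, hθ.2.2⟩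
  obtain ⟨θ, hθ, hθ0⟩ := ((h3.filter_mono nhdsWithin_le_nhds).and
    (self_mem_nhdsWithin : ∀ᶠ θ : ℚ in 𝓝[>] 0, 0 < θ)).exists
  obtain ⟨-, h4⟩ := hθ.1 (by
    rw [map_add, hφ, map_smul, smul_eq_mul, zero_add]
    exact mul_nonneg hθ0.le hw)
  obtain ⟨-, h5⟩ := hθ.2 (by
    rw [map_sub, hφ, map_smul, smul_eq_mul, zero_sub, neg_nonpos]
    exact mul_nonneg hθ0.le hw)
  obtain ⟨-, e, he, hT, hc⟩ := h4 P
  obtain ⟨-, e', he', hT', hc'⟩ := h5 P
  have h6 := (h2.2 P).1 ((1 / 2 : ℚ) • (e + e'))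
    (smul_nonneg (by norm_num) (add_nonneg he he')) (by
      rw [map_smul, map_add, hT, hT']
      have : μ + θ • w + (μ - θ • w) = (2 : ℚ) • μ := by
        rw [two_smul]
        abel
      rw [this, smul_smul]
      norm_num)
  rw [map_smul, map_add, hc, hc', map_add, map_sub, map_smul, map_smul, heq P, smul_eq_mul,
    smul_eq_mul, smul_eq_mul] at h6
  have h7 : θ * d P w ≤ θ * d' P w := by linarith
  exact le_of_mul_le_mul_left h7 hθ0

/-- functions which agree at a vector which is not in the kernel -/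
theorem wall_ext {c : ι → Fin N0 → ℚ} {d d' : ι → (Fin p → ℚ) →ₗ[ℚ] ℚ}
    {φ : (Fin p → ℚ) →ₗ[ℚ] ℚ} {μ : Fin p → ℚ} (hφ : φ μ = 0)
    (h : ∀ᶠ μ' in 𝓝 μ, (0 ≤ φ μ' → Lin g c d μ') ∧ (φ μ' ≤ 0 → Lin g c d' μ')) (P : ι)
    {κ : Fin p → ℚ} (hκ : φ κ ≠ 0) (heq : d P κ = d' P κ) : d P = d' P := by
  refine LinearMap.ext fun v => ?_
  obtain ⟨w, hw⟩ : ∃ w, w = v - (φ v / φ κ) • κ := ⟨_, rfl⟩
  have h5 : φ w = 0 := by
    rw [hw, map_sub, map_smul, smul_eq_mul, div_mul_cancel₀ _ hκ, sub_self]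
  have h6 := wall_key hφ h P w h5.ge
  have h7 := wall_key hφ h P (-w) (by rw [map_neg, h5, neg_zero])
  rw [map_neg, map_neg] at h7
  have h8 : d P w = d' P w := le_antisymm h6 (by linarith)
  rw [hw, map_sub, map_sub, map_smul, map_smul, heq] at h8
  linarith

/-- **The negativity lemma.** -/
theorem neg_of_wall {c : ι → Fin N0 → ℚ} {d d' : ι → (Fin p → ℚ) →ₗ[ℚ] ℚ}
    {φ : (Fin p → ℚ) →ₗ[ℚ] ℚ} {μ κ : Fin p → ℚ} (hφκ : φ κ < 0) (hφ : φ μ = 0)
    (h : ∀ᶠ μ' in 𝓝 μ, (0 ≤ φ μ' → Lin g c d μ') ∧ (φ μ' ≤ 0 → Lin g c d' μ')) :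
    (∀ P, d' P κ ≤ d P κ) ∧ ((∃ P, d P ≠ d' P) → ∃ P, d' P κ < d P κ) := by
  have h3 : ∀ P, d' P κ ≤ d P κ := by
    intro P
    have h3 := wall_key hφ h P (-κ) (by
      rw [map_neg]
      linarith)
    rw [map_neg, map_neg] at h3
    linarith
  refine ⟨h3, ?_⟩
  rintro ⟨P, hP⟩
  exact ⟨P, lt_of_le_of_ne (h3 P) fun h4 => hP (wall_ext hφ h P hφκ.ne h4.symm)⟩

/-- the two sides of a wall -/
theorem iff_of_wall {c : ι → Fin N0 → ℚ} {d d' : ι → (Fin p → ℚ) →ₗ[ℚ] ℚ}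
    {φ : (Fin p → ℚ) →ₗ[ℚ] ℚ} {μ : Fin p → ℚ} (hφ : φ μ = 0)
    (h : ∀ᶠ μ' in 𝓝 μ, (0 ≤ φ μ' → Lin g c d μ') ∧ (φ μ' ≤ 0 → Lin g c d' μ'))
    (hne : ∃ P, d P ≠ d' P) :
    ∀ᶠ μ' in 𝓝 μ, (0 ≤ φ μ' ↔ Lin g c d μ') ∧ (φ μ' ≤ 0 ↔ Lin g c d' μ') := by
  obtain ⟨P, hP⟩ := hne
  refine h.mono fun μ' h1 => ⟨⟨h1.1, fun h2 => ?_⟩, ⟨h1.2, fun h2 => ?_⟩⟩
  · by_contra h3
    rw [not_le] at h3
    exact hP (wall_ext hφ h P h3.ne (wall_eq h2 (h1.2 h3.le) P))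
  · by_contra h3
    rw [not_le] at h3
    exact hP (wall_ext hφ h P h3.ne' (wall_eq (h1.1 h3.le) h2 P))

end Pool.Agent.T9h79.MM
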